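import Pool.Agent.Q215.Chg.Walk

open MeasureTheory Filter Topology

namespace Pool.Agent.Results.MP_8e4414_pr.FreeEnergyExists

/-- An admissible charge law: all exponential moments are finite, mean `0`, second moment `1`. -/
structure Admissible (ν : Measure ℝ) : Prop where
  prob : IsProbabilityMeasure ν
  expMoments : ∀ δ : ℝ, Integrable (fun x => Real.exp (δ * x)) ν
  meanZero : ∫ x, x ∂ν = 0
  secondMoment : ∫ x, x ^ 2 ∂ν = 1

/-- The nearest-neighbour step of `ℤ^d` coded by a coordinate and a sign. -/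
def step {d : ℕ} (s : Fin d × Bool) : Fin d → ℤ := Pi.single s.1 (if s.2 then 1 else -1)

/-- `site e i` is the position `S_{i+1}` of the walk with steps `e`, where `i = 0, ..., n-1`. -/
def site {d n : ℕ} (e : Fin n → Fin d × Bool) (i : Fin n) : Fin d → ℤ :=
  ∑ k ∈ Finset.Iic i, step (e k)

/-- The energy `∑_{x ∈ ℤ^d} (∑_{i=1}^n ω_i 1_{S_i = x})^2`. -/
noncomputable def energy {d n : ℕ} (e : Fin n → Fin d × Bool) (ω : Fin n → ℝ) : ℝ :=
  ∑ᶠ x : Fin d → ℤ, (∑ i, if site e i = x then ω i else 0) ^ 2

/-- The annealed partition function: the average over the `(2d)^n` simple random walk paths of the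
integral over i.i.d. charges with the tilted one-site marginal `e^{δ x} ν(dx) / M(δ)`. -/
noncomputable def Z (d : ℕ) (ν : Measure ℝ) (δ β : ℝ) (n : ℕ) : ℝ :=
  (∑ e : Fin n → Fin d × Bool, ∫ ω : Fin n → ℝ, Real.exp (-β * energy e ω)
    ∂(Measure.pi fun _ => ν.tilted fun x => δ * x)) / (2 * d) ^ n

open Pool.Agent.Q215.Chg

theorem good {ν : Measure ℝ} (h : Admissible ν) (δ : ℝ) :
    Good (ν.tilted fun x => δ * x) δ (Real.log (∫ x, Real.exp (δ * x) ∂ν)) := by
  have := h.prob
  have hint := h.expMoments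
  have hid : Integrable (fun x : ℝ => x) ν := by
    have h1 : ProbabilityTheory.integrableExpSet (fun x : ℝ => x) ν = Set.univ := by
      ext v
      simp only [Set.mem_univ, iff_true]
      exact hint v
    have h2 := ProbabilityTheory.integrable_pow_mul_exp_of_mem_interior_integrableExpSet
      (X := fun x : ℝ => x) (v := 0) (μ := ν) (by rw [h1]; simp) 1
    simpa using h2
  have hM1 : 1 ≤ ∫ x, Real.exp (δ * x) ∂ν := by
    have h1 : ∫ x, (1 + δ * x) ∂ν ≤ ∫ x, Real.exp (δ * x) ∂ν := by
      refine integral_mono ((integrable_const _).add (hid.const_mul _)) (hint δ) fun x => ?_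
      simp only []
      have := Real.add_one_le_exp (δ * x)
      linarith
    rw [integral_add (integrable_const _) (hid.const_mul _), integral_const_mul, h.meanZero] at h1
    simpa using h1
  have hM0 : (0 : ℝ) < ∫ x, Real.exp (δ * x) ∂ν := by linarith
  have key : ∀ g : ℝ → ℝ, ∫ x, Real.exp (Real.log (∫ x, Real.exp (δ * x) ∂ν) - δ * x) * g x
      ∂(ν.tilted fun x => δ * x) = ∫ x, g x ∂ν := by
    intro g
    rw [integral_tilted]
    refine integral_congr_ae (Filter.Eventually.of_forall fun x => ?_)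
    simp only [smul_eq_mul]
    rw [Real.exp_sub, Real.exp_log hM0]
    have := (Real.exp_pos (δ * x)).ne'
    field_simp
  refine ⟨isProbabilityMeasure_tilted (hint δ), ?_, Real.log_nonneg hM1, ?_, ?_, ?_⟩
  · intro t
    rw [integrable_tilted_iff]
    · refine (hint (δ + t)).congr (Filter.Eventually.of_forall fun x => ?_)
      simp only [smul_eq_mul]
      rw [← Real.exp_add]
      congr 1
      ring
    · exact hint δ
  · have := key fun _ => 1
    simpa using this
  · rw [key fun x => x, h.meanZero]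
  · rw [key fun x => x ^ 2, h.secondMoment]

theorem site_eq {d n : ℕ} [NeZero d] (e : Fin n → Fin d × Bool) :
    site e = Ps (fun i => if h : i < n then e ⟨i, h⟩ else default) n := by
  funext i
  unfold site Ps Pool.Agent.Helper964.Chg.pos
  symm
  refine Finset.sum_bij' (fun k hk => (⟨k, by
    have := Finset.mem_range.1 hk
    have := i.2
    omega⟩ : Fin n)) (fun k _ => (k : ℕ)) ?_ ?_ ?_ ?_ ?_
  · intro k hk
    have := Finset.mem_range.1 hk
    rw [Finset.mem_Iic, Fin.le_def]
    simp only []
    omega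
  · intro k hk
    rw [Finset.mem_Iic, Fin.le_def] at hk
    rw [Finset.mem_range]
    omega
  · intro k hk; rfl
  · intro k hk; rfl
  · intro k hk
    have h1 := Finset.mem_range.1 hk
    have h2 : k < n := by have := i.2; omega
    simp only [h2, dif_pos]
    rfl

theorem energy_eq {d n : ℕ} (e : Fin n → Fin d × Bool) (ω : Fin n → ℝ) :
    energy e ω = En (site e) ω := by
  unfold energy
  rw [En_eq (site e) ω (Finset.univ.image (site e))
    (fun i => Finset.mem_image_of_mem _ (Finset.mem_univ i))]
  refine finsum_eq_sum_of_support_subset _ ?_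
  intro x hx
  rw [Finset.mem_coe, Finset.mem_image]
  by_contra hcon
  refine hx ?_
  have : ∀ i, ¬ site e i = x := fun i hi => hcon ⟨i, Finset.mem_univ _, hi⟩
  simp [this]

theorem Z_eq (d : ℕ) [NeZero d] (ν : Measure ℝ) (δ β : ℝ) (n : ℕ) :
    Z d ν δ β n = Zr d (ν.tilted fun x => δ * x) β n := by
  unfold Z Zr
  rw [Pool.Agent.Helper964.Chg.Ex_eq_sum, Finset.sum_div]
  refine Finset.sum_congr rfl fun e _ => ?_
  simp only [Pool.Agent.Helper964.Chg.sw, Finset.prod_const, Finset.card_univ, Fintype.card_fin]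
  rw [div_pow, one_pow, div_eq_mul_inv, mul_comm, one_div]
  congr 1
  unfold Wt
  simp only [energy_eq, site_eq]

/-- For every `d ≥ 2`, every admissible charge law and all parameters, the annealed free energy
exists as a limit. -/
theorem result (d : ℕ) (hd : 2 ≤ d) (ν : Measure ℝ) (hν : Admissible ν) (δ β : ℝ)
    (hβ : 0 < β) :
    (∀ n, 0 < Z d ν δ β n) ∧
    ∃ F : ℝ, limsup (fun n : ℕ => Real.log (Z d ν δ β n) / n) atTop = F ∧
      Tendsto (fun n : ℕ => Real.log (Z d ν δ β n) / n) atTop (𝓝 F) := by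
  have : NeZero d := ⟨by omega⟩
  have h := good hν δ
  refine ⟨fun n => by rw [Z_eq]; exact Zr_pos h hβ n, ?_⟩
  obtain ⟨F, hF⟩ := Zr_tendsto (d := d) h hβ hd
  simp only [← Z_eq] at hF
  exact ⟨F, hF.limsup_eq, hF⟩

end Pool.Agent.Results.MP_8e4414_pr.FreeEnergyExists
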